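import Pool.Agent.Helper4.LT.Gd
import Pool.Agent.Helper44.LT.N0
import Pool.Agent.Helper13.LT.Ps
import Pool.Agent.Helper63.LU.Df

/-!
PROJECT LT2 (MP_274814_nt): common definitions. `Phi q a b`, `rho q a b`, `lam q a b` of
Helper34/LT/Df.lean are the full index set, the scales and the lattice points of block F (all `u`,
units or not); `PU q a b` (Helper44/LT/N0.lean) is the CM type on the units; `HS`, `lamS`, `QPS` are in
Helper4/LT/Gd.lean; `Theta2` is in Helper63/LU/Df.lean; `PS` in Helper13/LT/Ps.lean.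
-/

set_option autoImplicit false

namespace Pool.Agent.Helper34.LU

open Finset Pool.Agent.Helper34.LT LTG
open Pool.Agent.Helper44.LT (PU)
open Pool.Agent.Helper13.LT (PS)

noncomputable section

/-! ### block F -/

/-- result of block F for `y^q = x^a (1-x)^b`, `a + b` prime to `q` -/
structure IsTauF (q a b : ℕ) (τ : (Phi q a b → ℂ) → ℂ) : Prop where
  diff : Differentiable ℂ τ
  zero : τ 0 = 0
  ne : ∃ z : Phi q a b → ℂ, (∀ u : Phi q a b, ¬ Nat.Coprime u q → z u = 0) ∧ τ z ≠ 0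
  rt : ∃ D : ℕ, 1 ≤ D ∧ RT D 1 τ
  sym : ∃ w : ℕ, ∀ z : Phi q a b → ℂ,
    τ (fun u => zt q ^ ((u : ℕ) * (a + b)) * z u) = zt q ^ w * τ z
  per : ∀ P : Polynomial ℤ, ∃ (l : (Phi q a b → ℂ) →ₗ[ℂ] ℂ) (c : ℂ), ∀ z,
    τ (z + lam q a b P) = Complex.exp (l z + c) * τ z

/-- `(X^q - 1) / Phi_q`, it vanishes at all `q`-th roots of unity which are not primitive -/
def psq (q : ℕ) : Polynomial ℤ := ∏ d ∈ q.properDivisors, Polynomial.cyclotomic d ℤ

/-- scale of the unit coordinate `u` -/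
def rhU (q a b u : ℕ) : ℂ := rho q a b u * Polynomial.aeval (zt q ^ u) (psq q)

/-! ### one CM type -/

/-- theta function (with rational Taylor series) and lattice of one CM type `s` (half system) -/
structure IsTh (q : ℕ) (s : Finset ℕ) (ρ : ℕ → ℂ) (κ : s → ℂ) (c : Polynomial ℤ → ℂ)
    (f : (s → ℂ) → ℂ) : Prop where
  half : HS q s
  rho : ∀ u ∈ s, ρ u ≠ 0
  kap : ∀ u, κ u ≠ 0
  diff : Differentiable ℂ f
  qp : QPS q s ρ κ c f
  rt : ∃ D : ℕ, 1 ≤ D ∧ RT D 1 f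
  growth : ∃ C : ℝ, ∀ z, ‖f z‖ ≤ Real.exp (C * (1 + ‖z‖ ^ 2))
  ne : ∃ z, f z ≠ 0
  bpf : ∀ p, ∃ F : (s → ℂ) → ℂ, Differentiable ℂ F ∧ QPS q s ρ κ c F ∧ F p ≠ 0
  imm : ∀ v : s → ℂ, v ≠ 0 → ∃ F G : (s → ℂ) → ℂ, Differentiable ℂ F ∧ Differentiable ℂ G ∧
    QPS q s ρ κ c F ∧ QPS q s ρ κ c G ∧ fderiv ℂ F 0 v * G 0 ≠ F 0 * fderiv ℂ G 0 v
  alg : ∀ u : s, IsAlgebraic ℚ (κ u * ρ u / (2 * Real.pi * Complex.I))

/-! ### vector functions -/

open Classical in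
/-- Taylor coefficient at `0` of an entire function -/
def cof {ι : Type} [Fintype ι] (g : (ι → ℂ) → ℂ) (k : ι → ℕ) : ℂ :=
  if h : ∃ c : (ι → ℕ) → ℂ, PS c g then Classical.choose h k else 0

/-- `∂_t^k [f(z+t) exp(-∑ t_u w_u)]` at `t = 0`, where `x = (z, w)` -/
def vx {ι : Type} [Fintype ι] (f : (ι → ℂ) → ℂ) (k : ι → ℕ) (x : ι ⊕ ι → ℂ) : ℂ :=
  (∏ u, ((k u).factorial : ℂ)) *
    cof (fun t : ι → ℂ => f (fun u => x (Sum.inl u) + t u) *
      Complex.exp (-∑ u, t u * x (Sum.inr u))) k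

/-- indices of the product functions -/
abbrev JJ (s t : Finset ℕ) (L : ℕ) : Type := (s → Fin (L + 1)) × (t → Fin (L + 1))

/-- all coordinates: `(abelian, type 1 | type 2), (vertical, type 1 | type 2)` -/
abbrev II (s t : Finset ℕ) : Type := (s ⊕ t) ⊕ (s ⊕ t)

/-- product of a vector function of type 1 and one of type 2 -/
def Vx {s t : Finset ℕ} {L : ℕ} (f : (s → ℂ) → ℂ) (g : (t → ℂ) → ℂ) (j : JJ s t L)
    (x : II s t → ℂ) : ℂ :=
  vx f (fun u => (j.1 u : ℕ))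
      (Sum.elim (fun u => x (Sum.inl (Sum.inl u))) (fun u => x (Sum.inr (Sum.inl u)))) *
    vx g (fun v => (j.2 v : ℕ))
      (Sum.elim (fun v => x (Sum.inl (Sum.inr v))) (fun v => x (Sum.inr (Sum.inr v))))

/-! ### the space `V` and its embeddings -/

/-- the units of `[1, q-1]`: the coordinates of `V` -/
def UU (q : ℕ) : Finset ℕ := (Icc 1 (q - 1)).filter fun u => Nat.Coprime u q

theorem mem_UU {q u : ℕ} : u ∈ UU q ↔ (1 ≤ u ∧ u ≤ q - 1) ∧ Nat.Coprime u q := by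
  rw [UU, mem_filter, mem_Icc]

theorem HS_mem {q : ℕ} {s : Finset ℕ} (hs : HS q s) (u : s) : (u : ℕ) ∈ UU q := by
  obtain ⟨h1, h2, h3⟩ := hs.mem u u.2
  exact mem_UU.2 ⟨⟨h1, by omega⟩, h3⟩

theorem HS_mem' {q : ℕ} {s : Finset ℕ} (hs : HS q s) (u : s) : q - (u : ℕ) ∈ UU q := by
  obtain ⟨h1, h2, h3⟩ := hs.mem u u.2
  exact mem_UU.2 ⟨⟨by omega, by omega⟩, (Nat.coprime_self_sub_left h2.le).2 h3⟩

/-- coordinate of `V` used by each coordinate of `C^(II s t)` -/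
def pj {q : ℕ} {s t : Finset ℕ} (hs : HS q s) (ht : HS q t) : II s t → UU q
  | Sum.inl (Sum.inl u) => ⟨u, HS_mem hs u⟩
  | Sum.inl (Sum.inr v) => ⟨v, HS_mem ht v⟩
  | Sum.inr (Sum.inl u) => ⟨q - u, HS_mem' hs u⟩
  | Sum.inr (Sum.inr v) => ⟨q - v, HS_mem' ht v⟩

/-- the embedding of `V` with slopes `X` -/
def wv {q : ℕ} {s t : Finset ℕ} (hs : HS q s) (ht : HS q t) (X : II s t → ℂ) (x : UU q → ℂ) :
    II s t → ℂ := fun i => X i * x (pj hs ht i)

/-- the true slopes -/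
def tru {s t : Finset ℕ} (ρ1 ρ2 : ℕ → ℂ) (κ1 : s → ℂ) (κ2 : t → ℂ) : II s t → ℂ :=
  Sum.elim (Sum.elim (fun u => ρ1 u) (fun v => ρ2 v)) (Sum.elim κ1 κ2)

/-! ### the lattice of the product, for `Theta2` -/

/-- lattice points -/
def gm (q : ℕ) (s t : Finset ℕ) (ρ1 ρ2 : ℕ → ℂ) :
    Polynomial ℤ × Polynomial ℤ →+ (s ⊕ t → ℂ) where
  toFun a := Sum.elim (lamS q s ρ1 a.1) (lamS q t ρ2 a.2)
  map_zero' := by
    funext i
    rcases i with i | i <;> simp [lamS, pt]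
  map_add' a b := by
    funext i
    rcases i with i | i <;> simp [lamS, pt, mul_add]

/-- linear parts of the multipliers -/
def lm (q : ℕ) {s t : Finset ℕ} (κ1 : s → ℂ) (κ2 : t → ℂ) :
    Polynomial ℤ × Polynomial ℤ →+ ((s ⊕ t → ℂ) →ₗ[ℂ] ℂ) where
  toFun a := ∑ u, (κ1 u * (starRingEnd ℂ) (pt q s a.1 u)) • LinearMap.proj (Sum.inl u) +
    ∑ v, (κ2 v * (starRingEnd ℂ) (pt q t a.2 v)) • LinearMap.proj (Sum.inr v)
  map_zero' := by simp [pt]
  map_add' a b := by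
    ext x
    simp [pt, mul_add, add_mul, Finset.sum_add_distrib]
    ring

/-- constant parts of the multipliers -/
def cm (c1 c2 : Polynomial ℤ → ℂ) (a : Polynomial ℤ × Polynomial ℤ) : ℂ := c1 a.1 + c2 a.2

/-- the real linear map which gives the vertical part of the periods -/
def sgm {s t : Finset ℕ} (ρ1 ρ2 : ℕ → ℂ) (κ1 : s → ℂ) (κ2 : t → ℂ) :
    (s ⊕ t → ℂ) →ₗ[ℝ] (s ⊕ t → ℂ) where
  toFun x := Sum.elim (fun u => κ1 u * (starRingEnd ℂ) (x (Sum.inl u) / ρ1 u))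
    (fun v => κ2 v * (starRingEnd ℂ) (x (Sum.inr v) / ρ2 v))
  map_add' x y := by
    funext i
    rcases i with i | i <;> simp [add_div, mul_add]
  map_smul' r x := by
    funext i
    rcases i with i | i
    · simp only [Sum.elim_inl, Pi.smul_apply, Complex.real_smul, RingHom.id_apply, mul_div_assoc,
        map_mul, Complex.conj_ofReal]
      ring
    · simp only [Sum.elim_inr, Pi.smul_apply, Complex.real_smul, RingHom.id_apply, mul_div_assoc,
        map_mul, Complex.conj_ofReal]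
      ring

end

end Pool.Agent.Helper34.LU
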