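import Pool.Agent.Helper34.LU.Df
import Pool.Agent.Helper53.LX.Th
import Pool.Agent.Helper53.LX.Bm3
import Pool.Agent.Helper59.LU.Am
import Pool.Agent.Helper59.LU.Za
import Pool.Agent.Helper16.LV.E
import Pool.Agent.Helper63.LU.Ym
import Pool.Agent.Helper93.LX.Vd
import Pool.Agent.Helper93.LX.Ve
import Pool.Agent.Helper96.LU.Vr
import Pool.Agent.Helper11.LU.Vn

/-!
PROJECT LT2 (MP_274814_nt): the three main inputs `B_main`, `A_main`, `Z_app` from the blocks.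
-/

set_option autoImplicit false

namespace Pool.Agent.Helper34.LUC

open Finset Pool.Agent.Helper34.LT LTG Pool.Agent.Helper34.LU
open Pool.Agent.Helper63.LU (Theta2)

variable (q : ℕ) (s t : Finset ℕ) (ρ1 ρ2 : ℕ → ℂ) (κ1 : s → ℂ) (κ2 : t → ℂ)
  (c1 c2 : Polynomial ℤ → ℂ) (f : (s → ℂ) → ℂ) (g : (t → ℂ) → ℂ)

theorem Vx_differentiable (h1 : IsTh q s ρ1 κ1 c1 f) (h2 : IsTh q t ρ2 κ2 c2 g) (L : ℕ)
    (j : JJ s t L) : Differentiable ℂ (Vx f g j) := by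
  classical
  have h := (Pool.Agent.Helper93.LX.V_theta q s t ρ1 ρ2 κ1 κ2 c1 c2 f g h1 h2 L
    (Pi.single j 1)).1
  have e : (fun x => ∑ k, (Pi.single j (1 : ℂ) : JJ s t L → ℂ) k * Vx f g k x) = Vx f g j := by
    funext x
    rw [Finset.sum_eq_single j]
    · rw [Pi.single_eq_same, one_mul]
    · intro b _ hb
      rw [Pi.single_eq_of_ne hb, zero_mul]
    · intro hj
      exact absurd (Finset.mem_univ j) hj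
  rwa [e] at h

theorem B_main (h1 : IsTh q s ρ1 κ1 c1 f) (h2 : IsTh q t ρ2 κ2 c2 g)
    (hk1 : ∀ u (hu : u ∈ s) (hv : u ∈ t), κ1 ⟨u, hu⟩ * ρ1 u + κ2 ⟨u, hv⟩ * ρ2 u ≠ 0)
    (hk2 : ∀ u (hu : u ∈ s) (hv : q - u ∈ t),
      κ1 ⟨u, hu⟩ * ρ1 u - κ2 ⟨q - u, hv⟩ * ρ2 (q - u) ≠ 0)
    (e : ℕ) (he : 1 ≤ e) :
    ∃ C : ℝ, 0 < C ∧ ∀ L : ℕ, 1 ≤ L → ∀ S U : ℝ, 1 ≤ S → S ≤ U →
      C * (L * Real.log (L + 2)) ≤ U →
      C * (L : ℝ) ^ (e * (q.totient / 2 - (s \ t).card)) * U ^ (e * (s \ t).card + 1) ≤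
        (L : ℝ) ^ (e * (2 * (q.totient / 2))) * S →
      ∃ c : (Fin e → JJ s t L) → ℤ, c ≠ 0 ∧ (∀ k, |(c k : ℝ)| ≤ Real.exp S) ∧
        ∀ x : Fin e → UU q → ℂ, (∀ i, ‖x i‖ ≤ 1) →
          ‖∑ k, (c k : ℂ) *
            ∏ i, Vx f g (k i) (wv h1.half h2.half (tru ρ1 ρ2 κ1 κ2) (x i))‖ ≤ Real.exp (-U) :=
  Pool.Agent.Helper53.LX.B_main_of q s t ρ1 ρ2 κ1 κ2 c1 c2 f g h1 h2
    (Vx_differentiable q s t ρ1 ρ2 κ1 κ2 c1 c2 f g h1 h2)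
    (Pool.Agent.Helper93.LX.V_growth q s t ρ1 ρ2 κ1 κ2 c1 c2 f g h1 h2)
    (Pool.Agent.Helper93.LX.V_per q s t ρ1 ρ2 κ1 κ2 c1 c2 f g h1 h2)
    (fun L j X w hs ht R =>
      Pool.Agent.Helper93.LX.V_poly q s t ρ1 ρ2 κ1 κ2 c1 c2 f g h1 h2 L j X w hs ht R)
    hk1 hk2 e he

theorem A_main (h1 : IsTh q s ρ1 κ1 c1 f) (h2 : IsTh q t ρ2 κ2 c2 g) (e : ℕ) (_he : 1 ≤ e) :
    ∃ C : ℝ, 1 ≤ C ∧ ∀ L T : ℕ, 1 ≤ L → L ≤ T → ∀ c : (Fin e → JJ s t L) → ℤ, c ≠ 0 →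
      (∀ k, |(c k : ℝ)| ≤ Real.exp (T * Real.log (T + 2))) →
      ∃ (N : ℕ) (P : Fin N → MvPolynomial (II s t) ℤ),
        (N : ℝ) ≤ Real.exp (C * T) ∧ (∀ m, ((P m).totalDegree : ℝ) ≤ C * T) ∧
        (∀ m k, |(((P m).coeff k : ℤ) : ℝ)| ≤ Real.exp (C * T * Real.log (T + 2))) ∧
        (∀ (X : II s t → ℂ) (U : ℝ),
          (∀ x : Fin e → UU q → ℂ, (∀ i, ‖x i‖ ≤ 1) →
            ‖∑ k, (c k : ℂ) * ∏ i, Vx f g (k i) (wv h1.half h2.half X (x i))‖ ≤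
              Real.exp (-U)) →
          ∀ m, ‖MvPolynomial.aeval X (P m)‖ ≤ Real.exp (C * T * Real.log (T + 2) - U)) ∧
        (∀ X : II s t → ℂ, (∀ m, MvPolynomial.aeval X (P m) = 0) →
          ∃ b : JJ s t L → ℂ, b ≠ 0 ∧ ∀ x : UU q → ℂ, ∀ j ≤ T,
            iteratedDeriv j
              (fun z : ℂ => ∑ k, b k * Vx f g k (wv h1.half h2.half X (z • x))) 0 = 0) :=
  Pool.Agent.Helper59.LU.A_main_of q s t f g h1.half h2.half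
    (Pool.Agent.Helper96.LU.V_rt q s t ρ1 ρ2 κ1 κ2 c1 c2 f g h1 h2)
    (Pool.Agent.Helper93.LX.V_growth q s t ρ1 ρ2 κ1 κ2 c1 c2 f g h1 h2) e

theorem Z_app (h1 : IsTh q s ρ1 κ1 c1 f) (h2 : IsTh q t ρ2 κ2 c2 g) (hst : s ≠ t) :
    ∃ C : ℕ, ∀ X : II s t → ℂ, (∀ i, X i ≠ 0) → ∀ L : ℕ, 1 ≤ L →
      ∀ b : JJ s t L → ℂ, b ≠ 0 → ∀ T : ℕ,
      (∀ x : UU q → ℂ, ∀ j ≤ 2 * q * T,
        iteratedDeriv j (fun z : ℂ => ∑ k, b k * Vx f g k (wv h1.half h2.half X (z • x))) 0 = 0) →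
      T ≤ C * L :=
  Pool.Agent.Helper59.LU.Z_app_of h1 h2
    (Pool.Agent.Helper59.LU.card_two h1.half h2.half
      (Pool.Agent.Helper53.LX.card_half q s h1.half) (Pool.Agent.Helper53.LX.card_half q t h2.half))
    (Pool.Agent.Helper93.LX.V_theta q s t ρ1 ρ2 κ1 κ2 c1 c2 f g h1 h2)
    (Pool.Agent.Helper11.LU.V_ne q s t ρ1 ρ2 κ1 κ2 c1 c2 f g h1 h2)
    (Pool.Agent.Helper63.LU.Z2_semi (gm q s t ρ1 ρ2) (lm q κ1 κ2) (cm c1 c2) (sgm ρ1 ρ2 κ1 κ2)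
      (Pool.Agent.Helper59.LU.lm_eq h1.rho h2.rho)
      (Pool.Agent.Helper59.LU.gm_cocompact h1.half h2.half h1.rho h2.rho)
      (Pool.Agent.Helper59.LU.gm_bpf h1 h2) (Pool.Agent.Helper59.LU.gm_imm h1 h2))
    (fun X hX H hH _ hS =>
      Pool.Agent.Helper16.LV.semi_app h1.half h2.half h1.rho h2.rho h1.kap h2.kap hst X hX H hH hS)

end Pool.Agent.Helper34.LUC
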