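import Pool.Agent.Helper34.LU.Tg
import Pool.Agent.Helper29.CN.M
import Pool.Agent.Helper24.LU.Tr

/-!
PROJECT LT2: assembly (from the stubs).
-/

set_option autoImplicit false

namespace Pool.Agent.Helper34.LU.Stub

open Finset Pool.Agent.Helper34.LT LTG Pool.Agent.Helper34.LU
open Pool.Agent.Helper44.LT (PU)
open Pool.Agent.Helper63.LU (Theta2)
open Pool.Agent.Helper24.LU (KR Rr)

theorem wv_smul {q : ℕ} {s t : Finset ℕ} (hs : HS q s) (ht : HS q t) (X : II s t → ℂ)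
    (σ x : UU q → ℂ) :
    wv hs ht (fun i => X i * σ (pj hs ht i)) x = wv hs ht X (fun w => σ w * x w) := by
  funext i
  simp only [wv, mul_assoc]

theorem pair_main {q : ℕ} {s t : Finset ℕ} {ρ1 ρ2 : ℕ → ℂ} {κ1 : s → ℂ} {κ2 : t → ℂ}
    {c1 c2 : Polynomial ℤ → ℂ} {f : (s → ℂ) → ℂ} {g : (t → ℂ) → ℂ}
    (h1 : IsTh q s ρ1 κ1 c1 f) (h2 : IsTh q t ρ2 κ2 c2 g) (hst : s ≠ t)
    (hk1 : ∀ u (hu : u ∈ s) (hv : u ∈ t), κ1 ⟨u, hu⟩ * ρ1 u + κ2 ⟨u, hv⟩ * ρ2 u ≠ 0)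
    (hk2 : ∀ u (hu : u ∈ s) (hv : q - u ∈ t),
      κ1 ⟨u, hu⟩ * ρ1 u - κ2 ⟨q - u, hv⟩ * ρ2 (q - u) ≠ 0)
    (σ : UU q → ℂ) (hσ0 : ∀ w, σ w ≠ 0) (hσ1 : ∀ w, ‖σ w‖ ≤ 1)
    (n : ℕ) (hn : n * (s \ t).card < q.totient / 2) :
    ∃ k : Fin (n + 1) → II s t, AlgebraicIndependent ℚ
      (fun i => tru ρ1 ρ2 κ1 κ2 (k i) * σ (pj h1.half h2.half (k i))) := by
  by_contra hcon
  push Not at hcon
  have hq : 1 ≤ q := by have := h1.half.three; omega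
  set g' := q.totient / 2 with hg'
  set r := (s \ t).card with hr
  have hrg : r ≤ g' := by
    rw [hg', ← card_half q s h1.half]
    exact card_le_card sdiff_subset
  obtain ⟨κ, hκ, hpar⟩ := params q g' r n hq hrg hn
  obtain ⟨CB, hCB, hB⟩ := B_main q s t ρ1 ρ2 κ1 κ2 c1 c2 f g h1 h2 hk1 hk2 (n + 1) (by omega)
  obtain ⟨CP, hCP, hP⟩ := A_main q s t ρ1 ρ2 κ1 κ2 c1 c2 f g h1 h2 (n + 1) (by omega)
  obtain ⟨CZ, hZ⟩ := Z_app q s t ρ1 ρ2 κ1 κ2 c1 c2 f g h1 h2 hst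
  set X0 : II s t → ℂ := fun i => tru ρ1 ρ2 κ1 κ2 i * σ (pj h1.half h2.half i) with hX0
  have hX0ne : ∀ i, X0 i ≠ 0 := by
    rintro ((u | v) | (u | v))
    · exact mul_ne_zero (h1.rho u u.2) (hσ0 _)
    · exact mul_ne_zero (h2.rho v v.2) (hσ0 _)
    · exact mul_ne_zero (h1.kap u) (hσ0 _)
    · exact mul_ne_zero (h2.kap v) (hσ0 _)
  obtain ⟨S0, hC⟩ := Pool.Agent.Helper29.CN.C_main_n n X0 hX0ne hcon κ hκ
  obtain ⟨L, T0, U, S, hL, hZ0, hLT, hTU, h1T, hLU, hBc, hS0, hS1, hS2, hS3⟩ :=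
    hpar (max CB 1) CP S0 (le_max_right _ _) hCP CZ
  set T := 2 * q * T0 with hT
  obtain ⟨c, hc0, hcS, hcU⟩ := hB L hL ((T : ℝ) * Real.log (T + 2)) U h1T hTU
    (le_trans (by
      have : CB ≤ max CB 1 := le_max_left _ _
      have h0 : 0 ≤ (L : ℝ) * Real.log (L + 2) :=
        mul_nonneg (Nat.cast_nonneg _) (Real.log_nonneg (by
          have : (0 : ℝ) ≤ L := Nat.cast_nonneg _
          linarith))
      gcongr) hLU) (le_trans (by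
      have : CB ≤ max CB 1 := le_max_left _ _
      have h0 : 0 ≤ U := le_trans (by linarith) hTU
      gcongr) hBc)
  obtain ⟨N, P, hN, hPd, hPc, hPs, hPv⟩ := hP L T hL hLT c hc0 hcS
  have hsmall : ∀ x : Fin (n + 1) → UU q → ℂ, (∀ i, ‖x i‖ ≤ 1) →
      ‖∑ k, (c k : ℂ) * ∏ i, Vx f g (k i) (wv h1.half h2.half X0 (x i))‖ ≤ Real.exp (-U) := by
    intro x hx
    have h3 := hcU (fun i w => σ w * x i w) (fun i => by
      rw [pi_norm_le_iff_of_nonneg zero_le_one]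
      intro w
      rw [norm_mul]
      calc ‖σ w‖ * ‖x i w‖ ≤ 1 * 1 := by
            have h4 := (norm_le_pi_norm (x i) w).trans (hx i)
            have h5 := hσ1 w
            gcongr
        _ = 1 := one_mul 1)
    simp only [hX0]
    simp only [wv_smul]
    exact h3
  obtain ⟨x, hx0, hx⟩ := hC S hS0 N P (hN.trans (Real.exp_le_exp.mpr hS2))
    (fun i => (hPd i).trans hS2)
    (fun i m => (hPc i m).trans (Real.exp_le_exp.mpr hS1))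
    (fun i => (hPs X0 U hsmall i).trans (Real.exp_le_exp.mpr hS3))
  obtain ⟨b, hb0, hb⟩ := hPv x hx
  have h6 := hZ x hx0 L hL b hb0 T0 (fun y j hj => hb y j hj)
  omega

/-- The general theorem. -/
theorem main (q a b a' b' : ℕ) (h3 : 3 ≤ q) (ha : ¬ q ∣ a) (hb : ¬ q ∣ b)
    (hab : Nat.Coprime (a + b) q) (ha' : ¬ q ∣ a') (hb' : ¬ q ∣ b')
    (hab' : Nat.Coprime (a' + b') q) (hne : PU q a b ≠ PU q a' b')
    (n : ℕ) (hn : n * (PU q a b \ PU q a' b').card < q.totient / 2) :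
    ∃ k : Fin (n + 1) → {a : ℕ // 1 ≤ a ∧ a < q},
      AlgebraicIndependent ℚ (fun i => ((Rr q (k i) : ℝ) : ℂ)) := by
  obtain ⟨τ1, ht1⟩ := F_main q a b h3 ha hb hab
  obtain ⟨τ2, ht2⟩ := F_main q a' b' h3 ha' hb' hab'
  obtain ⟨κ1, c1, f, h1⟩ := TH_main q a b h3 ha hb hab τ1 ht1
  obtain ⟨κ2, c2, g, h2⟩ := TH_main q a' b' h3 ha' hb' hab' τ2 ht2
  obtain ⟨N, hN, hk1, hk2⟩ := exists_pow q _ _ (rhU q a b) (rhU q a' b') κ1 κ2 h2.kap h2.rho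
  have h2' := th_pow q _ _ κ2 c2 g h2 N hN
  obtain ⟨σ, hσ0, hσ1, hσ⟩ := T_scale q a b a' b' h3 ha hb hab ha' hb' hab' κ1 _ c1 _ f _ h1 h2'
  obtain ⟨k, hk⟩ := pair_main h1 h2' hne hk1 hk2 σ hσ0 hσ1 n hn
  exact Pool.Agent.Helper24.LU.transfer
    (fun a : {a : ℕ // 1 ≤ a ∧ a < q} => ((Rr q a : ℝ) : ℂ)) _ n hσ k hk

end Pool.Agent.Helper34.LU.Stub
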