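import Pool.Agent.Helper34.LU.Df
import Pool.Agent.Helper13.LT.Psb

/-!
PROJECT LT2: the Taylor coefficient `cof`.
-/

set_option autoImplicit false

namespace Pool.Agent.Helper34.LU

open Finset Pool.Agent.Helper34.LT
open Pool.Agent.Helper13.LT (PS PS.unique PS.bound)

variable {ι : Type} [Fintype ι]

theorem cof_of_PS {g : (ι → ℂ) → ℂ} {c : (ι → ℕ) → ℂ} (h : PS c g) : cof g = c := by
  funext k
  have h1 : ∃ c : (ι → ℕ) → ℂ, PS c g := ⟨c, h⟩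
  rw [cof, dif_pos h1]
  exact congrFun (PS.unique (Classical.choose_spec h1) h) k

/-- Cauchy estimate -/
theorem cof_bound {g : (ι → ℂ) → ℂ} (h : ∃ c : (ι → ℕ) → ℂ, PS c g) {R B : ℝ} (hR : 0 ≤ R)
    (hB : ∀ z, ‖z‖ ≤ R → ‖g z‖ ≤ B) (k : ι → ℕ) : ‖cof g k‖ * R ^ (∑ u, k u) ≤ B := by
  obtain ⟨c, hc⟩ := h
  rw [cof_of_PS hc]
  exact PS.bound hc hR hB k

theorem cof_smul {g : (ι → ℂ) → ℂ} (h : ∃ c : (ι → ℕ) → ℂ, PS c g) (x : ℂ) (k : ι → ℕ) :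
    cof (fun z => x * g z) k = x * cof g k := by
  obtain ⟨c, hc⟩ := h
  rw [cof_of_PS hc, cof_of_PS (Pool.Agent.Helper13.LT.PS.smul hc x)]

end Pool.Agent.Helper34.LU
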