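import Pool.Agent.Helper34.LU.Df
import Pool.Agent.Helper24.LU.Ra

/-!
PROJECT LT2 (MP_274814_nt): the targets of all blocks. DO NOT IMPORT IN FINAL FILES (everything has
`sorry` here); restate your target word for word in your own file.

Notation: `g = q.totient / 2`, `r = (s \ t).card` places where the types differ.
-/

set_option autoImplicit false

namespace Pool.Agent.Helper34.LU.Stub

open Finset Pool.Agent.Helper34.LT LTG Pool.Agent.Helper34.LU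
open Pool.Agent.Helper44.LT (PU)
open Pool.Agent.Helper63.LU (Theta2)
open Pool.Agent.Helper24.LU (KR)

/-! ### block F (captain helper65) -/

theorem F_main (q a b : ℕ) (h3 : 3 ≤ q) (ha : ¬ q ∣ a) (hb : ¬ q ∣ b)
    (hab : Nat.Coprime (a + b) q) : ∃ τ : (Phi q a b → ℂ) → ℂ, IsTauF q a b τ := by
  sorry

/-! ### block G: half system, restriction to the units, theta functions, immersion, `κ ρ / (2πi)`
algebraic (captain helper4 / helper53) -/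

theorem half_PU (q a b : ℕ) (h3 : 3 ≤ q) (ha : ¬ q ∣ a) (hb : ¬ q ∣ b)
    (hab : Nat.Coprime (a + b) q) : HS q (PU q a b) := by
  sorry

theorem card_half (q : ℕ) (s : Finset ℕ) (hs : HS q s) : s.card = q.totient / 2 := by
  sorry

theorem TH_main (q a b : ℕ) (h3 : 3 ≤ q) (ha : ¬ q ∣ a) (hb : ¬ q ∣ b)
    (hab : Nat.Coprime (a + b) q) (τ : (Phi q a b → ℂ) → ℂ) (h : IsTauF q a b τ) :
    ∃ (κ : PU q a b → ℂ) (c : Polynomial ℤ → ℂ) (f : (PU q a b → ℂ) → ℂ),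
      IsTh q (PU q a b) (rhU q a b) κ c f := by
  sorry

/-! ### block P: powers -/

theorem th_pow (q : ℕ) (s : Finset ℕ) (ρ : ℕ → ℂ) (κ : s → ℂ) (c : Polynomial ℤ → ℂ)
    (f : (s → ℂ) → ℂ) (h : IsTh q s ρ κ c f) (N : ℕ) (hN : 1 ≤ N) :
    IsTh q s ρ (fun u => N * κ u) (fun P => N * c P) (fun z => f z ^ N) := by
  sorry

theorem exists_pow (q : ℕ) (s t : Finset ℕ) (ρ1 ρ2 : ℕ → ℂ) (κ1 : s → ℂ) (κ2 : t → ℂ)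
    (h2 : ∀ v, κ2 v ≠ 0) (h3 : ∀ v ∈ t, ρ2 v ≠ 0) : ∃ N : ℕ, 1 ≤ N ∧
      (∀ u (hu : u ∈ s) (hv : u ∈ t), κ1 ⟨u, hu⟩ * ρ1 u + (N * κ2 ⟨u, hv⟩) * ρ2 u ≠ 0) ∧
      (∀ u (hu : u ∈ s) (hv : q - u ∈ t),
        κ1 ⟨u, hu⟩ * ρ1 u - (N * κ2 ⟨q - u, hv⟩) * ρ2 (q - u) ≠ 0) := by
  sorry

/-! ### block V: vector functions (captain helper96) -/

section V

variable (q : ℕ) (s t : Finset ℕ) (ρ1 ρ2 : ℕ → ℂ) (κ1 : s → ℂ) (κ2 : t → ℂ)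
  (c1 c2 : Polynomial ℤ → ℂ) (f : (s → ℂ) → ℂ) (g : (t → ℂ) → ℂ)

theorem V_theta (h1 : IsTh q s ρ1 κ1 c1 f) (h2 : IsTh q t ρ2 κ2 c2 g) (L : ℕ)
    (b : JJ s t L → ℂ) :
    Theta2 (gm q s t ρ1 ρ2) (lm q κ1 κ2) (cm c1 c2) (sgm ρ1 ρ2 κ1 κ2) 1 (q * L)
      (fun x => ∑ j, b j * Vx f g j x) := by
  sorry

theorem V_ne (h1 : IsTh q s ρ1 κ1 c1 f) (h2 : IsTh q t ρ2 κ2 c2 g) (L : ℕ)
    (b : JJ s t L → ℂ) (hb : b ≠ 0) : ∃ x, ∑ j, b j * Vx f g j x ≠ 0 := by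
  sorry

theorem V_rt (h1 : IsTh q s ρ1 κ1 c1 f) (h2 : IsTh q t ρ2 κ2 c2 g) :
    ∃ D : ℕ, 1 ≤ D ∧ ∀ (L : ℕ) (j : JJ s t L), RT D (q * L + 2) (Vx f g j) := by
  sorry

theorem V_growth (h1 : IsTh q s ρ1 κ1 c1 f) (h2 : IsTh q t ρ2 κ2 c2 g) :
    ∃ C : ℝ, ∀ (L : ℕ) (j : JJ s t L) (x : II s t → ℂ),
      ‖Vx f g j x‖ ≤ Real.exp (C * (L * Real.log (L + 2) + ‖x‖ ^ 2 + 1)) := by
  sorry

/-- on `V`, true slopes: quasi-periodicity -/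
theorem V_per (h1 : IsTh q s ρ1 κ1 c1 f) (h2 : IsTh q t ρ2 κ2 c2 g) (L : ℕ) (j : JJ s t L)
    (P : Polynomial ℤ) (x : UU q → ℂ) :
    Vx f g j (wv h1.half h2.half (tru ρ1 ρ2 κ1 κ2) (x + pt q (UU q) P)) =
      Complex.exp (∑ u : s, κ1 u * ρ1 u * (starRingEnd ℂ) (pt q s P u) *
          x ⟨u, HS_mem h1.half u⟩ +
        ∑ v : t, κ2 v * ρ2 v * (starRingEnd ℂ) (pt q t P v) * x ⟨v, HS_mem h2.half v⟩ +
        (c1 P + c2 P)) *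
      Vx f g j (wv h1.half h2.half (tru ρ1 ρ2 κ1 κ2) x) := by
  sorry

/-- on `V`, any slopes: polynomial in the coordinates which are vertical for both types -/
theorem V_poly (h1 : IsTh q s ρ1 κ1 c1 f) (h2 : IsTh q t ρ2 κ2 c2 g) (L : ℕ) (j : JJ s t L)
    (X : II s t → ℂ) (w : UU q) (hs : (w : ℕ) ∉ s) (ht : (w : ℕ) ∉ t) (R : ℝ) :
    ∃ B : ℝ, ∀ (x : UU q → ℂ) (z : ℂ), ‖x‖ ≤ R →
      ‖Vx f g j (wv h1.half h2.half X (Function.update x w z))‖ ≤ B * (1 + ‖z‖) ^ (2 * L) := by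
  sorry

/-! ### block X: box principle for `e` copies (captain helper93) -/

theorem B_main (h1 : IsTh q s ρ1 κ1 c1 f) (h2 : IsTh q t ρ2 κ2 c2 g)
    (hk1 : ∀ u (hu : u ∈ s) (hv : u ∈ t), κ1 ⟨u, hu⟩ * ρ1 u + κ2 ⟨u, hv⟩ * ρ2 u ≠ 0)
    (hk2 : ∀ u (hu : u ∈ s) (hv : q - u ∈ t),
      κ1 ⟨u, hu⟩ * ρ1 u - κ2 ⟨q - u, hv⟩ * ρ2 (q - u) ≠ 0)
    (e : ℕ) (he : 1 ≤ e) :
    ∃ C : ℝ, 0 < C ∧ ∀ L : ℕ, 1 ≤ L → ∀ S U : ℝ, 1 ≤ S → S ≤ U →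
      C * (L * Real.log (L + 2)) ≤ U →
      C * (L : ℝ) ^ (e * (q.totient / 2 - (s \ t).card)) * U ^ (e * (s \ t).card + 1) ≤
        (L : ℝ) ^ (e * (2 * (q.totient / 2))) * S →
      ∃ c : (Fin e → JJ s t L) → ℤ, c ≠ 0 ∧ (∀ k, |(c k : ℝ)| ≤ Real.exp S) ∧
        ∀ x : Fin e → UU q → ℂ, (∀ i, ‖x i‖ ≤ 1) →
          ‖∑ k, (c k : ℂ) *
            ∏ i, Vx f g (k i) (wv h1.half h2.half (tru ρ1 ρ2 κ1 κ2) (x i))‖ ≤ Real.exp (-U) := by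
  sorry

/-! ### block A (captain helper59): the polynomials -/

theorem A_main (h1 : IsTh q s ρ1 κ1 c1 f) (h2 : IsTh q t ρ2 κ2 c2 g) (e : ℕ) (he : 1 ≤ e) :
    ∃ C : ℝ, 1 ≤ C ∧ ∀ L T : ℕ, 1 ≤ L → L ≤ T → ∀ c : (Fin e → JJ s t L) → ℤ, c ≠ 0 →
      (∀ k, |(c k : ℝ)| ≤ Real.exp (T * Real.log (T + 2))) →
      ∃ (N : ℕ) (P : Fin N → MvPolynomial (II s t) ℤ),
        (N : ℝ) ≤ Real.exp (C * T) ∧ (∀ m, ((P m).totalDegree : ℝ) ≤ C * T) ∧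
        (∀ m k, |(((P m).coeff k : ℤ) : ℝ)| ≤ Real.exp (C * T * Real.log (T + 2))) ∧
        (∀ (X : II s t → ℂ) (U : ℝ),
          (∀ x : Fin e → UU q → ℂ, (∀ i, ‖x i‖ ≤ 1) →
            ‖∑ k, (c k : ℂ) * ∏ i, Vx f g (k i) (wv h1.half h2.half X (x i))‖ ≤
              Real.exp (-U)) →
          ∀ m, ‖MvPolynomial.aeval X (P m)‖ ≤ Real.exp (C * T * Real.log (T + 2) - U)) ∧
        (∀ X : II s t → ℂ, (∀ m, MvPolynomial.aeval X (P m) = 0) →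
          ∃ b : JJ s t L → ℂ, b ≠ 0 ∧ ∀ x : UU q → ℂ, ∀ j ≤ T,
            iteratedDeriv j
              (fun z : ℂ => ∑ k, b k * Vx f g k (wv h1.half h2.half X (z • x))) 0 = 0) := by
  sorry

/-! ### block Z: zero estimate for all slopes (helper63, helper16, helper59) -/

theorem Z_app (h1 : IsTh q s ρ1 κ1 c1 f) (h2 : IsTh q t ρ2 κ2 c2 g) (hst : s ≠ t) :
    ∃ C : ℕ, ∀ X : II s t → ℂ, (∀ i, X i ≠ 0) → ∀ L : ℕ, 1 ≤ L →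
      ∀ b : JJ s t L → ℂ, b ≠ 0 → ∀ T : ℕ,
      (∀ x : UU q → ℂ, ∀ j ≤ 2 * q * T,
        iteratedDeriv j (fun z : ℂ => ∑ k, b k * Vx f g k (wv h1.half h2.half X (z • x))) 0 = 0) →
      T ≤ C * L := by
  sorry

end V

/-! ### block T (captain helper24): normalisation of the slopes -/

theorem T_scale (q a b a' b' : ℕ) (h3 : 3 ≤ q) (ha : ¬ q ∣ a) (hb : ¬ q ∣ b)
    (hab : Nat.Coprime (a + b) q) (ha' : ¬ q ∣ a') (hb' : ¬ q ∣ b')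
    (hab' : Nat.Coprime (a' + b') q)
    (κ1 : PU q a b → ℂ) (κ2 : PU q a' b' → ℂ) (c1 c2 : Polynomial ℤ → ℂ)
    (f : (PU q a b → ℂ) → ℂ) (g : (PU q a' b' → ℂ) → ℂ)
    (h1 : IsTh q (PU q a b) (rhU q a b) κ1 c1 f)
    (h2 : IsTh q (PU q a' b') (rhU q a' b') κ2 c2 g) :
    ∃ σ : UU q → ℂ, (∀ w, σ w ≠ 0) ∧ (∀ w, ‖σ w‖ ≤ 1) ∧
      ∀ i : II (PU q a b) (PU q a' b'), IsAlgebraic (KR q)
        (tru (rhU q a b) (rhU q a' b') κ1 κ2 i * σ (pj h1.half h2.half i)) := by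
  sorry

/-! ### parameters -/

theorem params (q g r n : ℕ) (hq : 1 ≤ q) (hr : r ≤ g) (h : n * r < g) :
    ∃ κ : ℝ, (n : ℝ) + 1 < κ ∧ ∀ CB CP S0 : ℝ, 1 ≤ CB → 1 ≤ CP → ∀ CZ : ℕ,
      ∃ (L T0 : ℕ) (U S : ℝ), 1 ≤ L ∧ CZ * L < T0 ∧ L ≤ 2 * q * T0 ∧
        ((2 * q * T0 : ℕ) : ℝ) * Real.log (((2 * q * T0 : ℕ) : ℝ) + 2) ≤ U ∧
        1 ≤ ((2 * q * T0 : ℕ) : ℝ) * Real.log (((2 * q * T0 : ℕ) : ℝ) + 2) ∧
        CB * (L * Real.log (L + 2)) ≤ U ∧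
        CB * (L : ℝ) ^ ((n + 1) * (g - r)) * U ^ ((n + 1) * r + 1) ≤
          (L : ℝ) ^ ((n + 1) * (2 * g)) *
            (((2 * q * T0 : ℕ) : ℝ) * Real.log (((2 * q * T0 : ℕ) : ℝ) + 2)) ∧
        S0 ≤ S ∧
        CP * ((2 * q * T0 : ℕ) : ℝ) * Real.log (((2 * q * T0 : ℕ) : ℝ) + 2) ≤ S ∧
        CP * ((2 * q * T0 : ℕ) : ℝ) ≤ S ∧
        CP * ((2 * q * T0 : ℕ) : ℝ) * Real.log (((2 * q * T0 : ℕ) : ℝ) + 2) - U ≤ -S ^ κ := by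
  sorry

end Pool.Agent.Helper34.LU.Stub
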